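import Mathlib
import Pool.Agent.H39.SL2

set_option autoImplicit false

namespace Pool.Agent.Results.MP_22c7c2_gt.NotChainComplete
universe v
open Pool.Agent.H39.SL.AH in
theorem result : ∃ (X : Type) (_ : TopologicalSpace X) (_ : SemilatticeInf X),
    ContinuousInf X ∧ T2Space X ∧
    (∀ (Y : Type v) [TopologicalSpace Y] [Semigroup Y] [ContinuousMul Y] [T2Space Y] (h : X → Y),
      Continuous h → (∀ a b, h (a ⊓ b) = h a * h b) → IsClosed (Set.range h)) ∧
    ∃ C : Set X, C.Nonempty ∧ IsChain (· ≤ ·) C ∧ ¬ ∃ m, IsGLB C m :=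
  ⟨Zᵒᵈ, inferInstance, inferInstance, inferInstance, inferInstanceAs (T2Space Z),
    fun _ _ _ _ _ h hc hm => absH h hc hm, Set.range c, Set.range_nonempty _, chain.symm,
    fun ⟨m, hm⟩ => no_ub m hm.1⟩

end Pool.Agent.Results.MP_22c7c2_gt.NotChainComplete
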